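import Pool.Agent.Helper93.WP.St

/-! # Project WP: module LIN (the linear system of Stepanov's method) -/

set_option autoImplicit false

namespace Pool.Agent.Helper86.WP

open Polynomial Pool.Agent.Helper93.WP

section

variable {k : Type} [Field k]

/-- the operator `P d/dX` -/
private noncomputable def th (P : k[X]) : k[X] →ₗ[k] k[X] :=
  (LinearMap.mulLeft k P).comp derivative

private theorem th_apply (P f : k[X]) : th P f = P * derivative f := rfl

variable {L : Type} [AddCommGroup L] [Module k L]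

/-- the generators of the class of degree `d` -/
private def gen (p : ℕ) (D A B : k[X]) (d : ℕ) : Set (L →ₗ[k] k[X]) :=
  {F | ∃ (v : L →ₗ[k] k) (l : ℕ) (q : k[X]) (y α β : ℕ), q.natDegree + l ≤ d ∧
    F = v.smulRight (X ^ (p * l) * q * D ^ y * A ^ α * B ^ β)}

private theorem smulRight_add' (v : L →ₗ[k] k) (x y : k[X]) :
    v.smulRight (x + y) = v.smulRight x + v.smulRight y := by
  ext u : 1
  simp

private theorem pow_der (P A R : k[X]) (h : P * derivative A = R * A) (α : ℕ) :
    P * derivative (A ^ α) = C (α : k) * R * A ^ α := by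
  cases α with
  | zero => simp
  | succ n =>
    rw [derivative_pow, Nat.add_sub_cancel, pow_succ]
    calc P * (C ((n + 1 : ℕ) : k) * A ^ n * derivative A)
        = C ((n + 1 : ℕ) : k) * A ^ n * (P * derivative A) := by ring
      _ = C ((n + 1 : ℕ) : k) * R * (A ^ n * A) := by rw [h]; ring

private theorem deg_aux {q R : k[X]} {c : k} {e : ℕ} (hR : R.natDegree ≤ e) :
    (C c * R * q).natDegree ≤ q.natDegree + e := by
  refine natDegree_mul_le.trans ?_
  have := natDegree_C_mul_le c R
  omega

/-- the class is stable under `P d/dX`, the degree grows by at most `4` -/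
private theorem step (p : ℕ) [CharP k p] {P D A B RA RB : k[X]} (hP : P.natDegree ≤ 4)
    (hRA : RA.natDegree ≤ 4) (hRB : RB.natDegree ≤ 4) (hD : derivative D = B - A)
    (hA : P * derivative A = RA * A) (hB : P * derivative B = RB * B) {d : ℕ} {F : L →ₗ[k] k[X]}
    (hF : F ∈ Submodule.span k (gen (L := L) p D A B d)) :
    (th P).comp F ∈ Submodule.span k (gen (L := L) p D A B (d + 4)) := by
  induction hF using Submodule.span_induction with
  | mem F hF =>
    obtain ⟨v, l, q, y, α, β, hd, rfl⟩ := hF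
    have e1 : (th P).comp (v.smulRight (X ^ (p * l) * q * D ^ y * A ^ α * B ^ β)) =
        v.smulRight (th P (X ^ (p * l) * q * D ^ y * A ^ α * B ^ β)) := by
      ext u : 1
      simp
    have hX : derivative (X ^ (p * l) : k[X]) = 0 := by
      rw [derivative_X_pow]
      have : ((p * l : ℕ) : k) = 0 := by
        rw [Nat.cast_mul, CharP.cast_eq_zero, zero_mul]
      rw [this, C_0, zero_mul]
    have e2 : th P (X ^ (p * l) * q * D ^ y * A ^ α * B ^ β) =
        X ^ (p * l) * (C 1 * P * derivative q) * D ^ y * A ^ α * B ^ β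
        + (X ^ (p * l) * (C (y : k) * P * q) * D ^ (y - 1) * A ^ α * B ^ (β + 1)
        + (X ^ (p * l) * (C (-(y : k)) * P * q) * D ^ (y - 1) * A ^ (α + 1) * B ^ β
        + (X ^ (p * l) * (C (α : k) * RA * q) * D ^ y * A ^ α * B ^ β
        + X ^ (p * l) * (C (β : k) * RB * q) * D ^ y * A ^ α * B ^ β))) := by
      rw [th_apply, derivative_mul, derivative_mul, derivative_mul, derivative_mul, hX]
      have hy : derivative (D ^ y) = C (y : k) * D ^ (y - 1) * (B - A) := by
        rw [derivative_pow, hD]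
      have ha := pow_der P A RA hA α
      have hb := pow_der P B RB hB β
      rw [hy]
      have e3 : P * ((((0 * q + X ^ (p * l) * derivative q) * D ^ y
            + X ^ (p * l) * q * (C (y : k) * D ^ (y - 1) * (B - A))) * A ^ α
            + X ^ (p * l) * q * D ^ y * derivative (A ^ α)) * B ^ β
            + X ^ (p * l) * q * D ^ y * A ^ α * derivative (B ^ β)) =
          P * ((X ^ (p * l) * derivative q) * D ^ y
            + X ^ (p * l) * q * (C (y : k) * D ^ (y - 1) * (B - A))) * A ^ α * B ^ β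
            + X ^ (p * l) * q * D ^ y * (P * derivative (A ^ α)) * B ^ β
            + X ^ (p * l) * q * D ^ y * A ^ α * (P * derivative (B ^ β)) := by ring
      rw [e3, ha, hb, C_neg, C_1]
      ring
    rw [e1, e2, smulRight_add', smulRight_add', smulRight_add', smulRight_add']
    have dq : (derivative q).natDegree ≤ q.natDegree := (natDegree_derivative_le q).trans (Nat.sub_le _ _)
    refine Submodule.add_mem _ (Submodule.subset_span ?_) (Submodule.add_mem _ (Submodule.subset_span ?_)
      (Submodule.add_mem _ (Submodule.subset_span ?_) (Submodule.add_mem _ (Submodule.subset_span ?_)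
      (Submodule.subset_span ?_))))
    · refine ⟨v, l, _, y, α, β, ?_, rfl⟩
      have := deg_aux (q := derivative q) (c := (1 : k)) hP
      omega
    · refine ⟨v, l, _, y - 1, α, β + 1, ?_, rfl⟩
      have := deg_aux (q := q) (c := (y : k)) hP
      omega
    · refine ⟨v, l, _, y - 1, α + 1, β, ?_, rfl⟩
      have := deg_aux (q := q) (c := -(y : k)) hP
      omega
    · refine ⟨v, l, _, y, α, β, ?_, rfl⟩
      have := deg_aux (q := q) (c := (α : k)) hRA
      omega
    · refine ⟨v, l, _, y, α, β, ?_, rfl⟩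
      have := deg_aux (q := q) (c := (β : k)) hRB
      omega
  | zero => rw [LinearMap.comp_zero]; exact Submodule.zero_mem _
  | add F G _ _ h1 h2 => rw [LinearMap.comp_add]; exact Submodule.add_mem _ h1 h2
  | smul c F _ h1 => rw [LinearMap.comp_smul]; exact Submodule.smul_mem _ _ h1

/-- the values at the good points are the values of a polynomial of degree `≤ d` -/
private theorem vals (p : ℕ) {D A B : k[X]} (s1 s2 : k) {d : ℕ} {F : L →ₗ[k] k[X]}
    (hF : F ∈ Submodule.span k (gen (L := L) p D A B d)) :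
    ∃ G : L →ₗ[k] k[X], (∀ u, (G u).natDegree ≤ d) ∧ ∀ (t : k) (u : L), D.eval t = 0 →
      A.eval t = s1 → B.eval t = s2 → t ^ p = t → (F u).eval t = (G u).eval t := by
  induction hF using Submodule.span_induction with
  | mem F hF =>
    obtain ⟨v, l, q, y, α, β, hd, rfl⟩ := hF
    refine ⟨v.smulRight (C (0 ^ y * s1 ^ α * s2 ^ β) * (q * X ^ l)), fun u => ?_, ?_⟩
    · rw [LinearMap.smulRight_apply]
      refine (natDegree_smul_le _ _).trans ((natDegree_C_mul_le _ _).trans ?_)
      refine natDegree_mul_le.trans ?_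
      have := natDegree_X_pow_le (R := k) l
      omega
    · intro t u h1 h2 h3 h4
      rw [LinearMap.smulRight_apply, LinearMap.smulRight_apply]
      simp only [eval_smul, eval_mul, eval_pow, eval_X, eval_C, h1, h2, h3, smul_eq_mul]
      rw [pow_mul, h4]
      ring
  | zero => exact ⟨0, fun u => by simp, fun t u _ _ _ _ => by simp⟩
  | add F G _ _ h1 h2 =>
    obtain ⟨F', hF1, hF2⟩ := h1
    obtain ⟨G', hG1, hG2⟩ := h2
    refine ⟨F' + G', fun u => ?_, fun t u a1 a2 a3 a4 => ?_⟩
    · rw [LinearMap.add_apply]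
      exact (natDegree_add_le _ _).trans (max_le (hF1 u) (hG1 u))
    · rw [LinearMap.add_apply, LinearMap.add_apply, eval_add, eval_add, hF2 t u a1 a2 a3 a4,
        hG2 t u a1 a2 a3 a4]
  | smul c F _ h1 =>
    obtain ⟨F', hF1, hF2⟩ := h1
    refine ⟨c • F', fun u => ?_, fun t u a1 a2 a3 a4 => ?_⟩
    · rw [LinearMap.smul_apply]
      exact (natDegree_smul_le _ _).trans (hF1 u)
    · rw [LinearMap.smul_apply, LinearMap.smul_apply, eval_smul, eval_smul, hF2 t u a1 a2 a3 a4]

private theorem iter_mem (p : ℕ) [CharP k p] {P D A B RA RB : k[X]} (hP : P.natDegree ≤ 4)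
    (hRA : RA.natDegree ≤ 4) (hRB : RB.natDegree ≤ 4) (hD : derivative D = B - A)
    (hA : P * derivative A = RA * A) (hB : P * derivative B = RB * B) {d : ℕ} {F : L →ₗ[k] k[X]}
    (hF : F ∈ Submodule.span k (gen (L := L) p D A B d)) (r : ℕ) :
    ∃ Fr : L →ₗ[k] k[X], Fr ∈ Submodule.span k (gen (L := L) p D A B (d + 4 * r)) ∧
      ∀ u, Fr u = (th P)^[r] (F u) := by
  induction r with
  | zero => exact ⟨F, by simpa using hF, fun u => rfl⟩
  | succ r ih =>
    obtain ⟨Fr, h1, h2⟩ := ih
    refine ⟨(th P).comp Fr, ?_, fun u => ?_⟩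
    · have := step p hP hRA hRB hD hA hB h1
      rw [show d + 4 * (r + 1) = d + 4 * r + 4 by ring]
      exact this
    · rw [LinearMap.comp_apply, h2, Function.iterate_succ_apply']

/-- the exact order of vanishing is seen by the iterates of `P d/dX` -/
private theorem iter_ne (p : ℕ) [Fact p.Prime] [CharP k p] (P : k[X]) (t : k) (hP : P.eval t ≠ 0)
    (e : ℕ) : e < p → ∀ g : k[X], g.eval t ≠ 0 →
      ((th P)^[e] ((X - C t) ^ e * g)).eval t ≠ 0 := by
  induction e with
  | zero => intro _ g hg; simpa using hg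
  | succ e ih =>
    intro he g hg
    rw [Function.iterate_succ_apply]
    have e1 : th P ((X - C t) ^ (e + 1) * g) =
        (X - C t) ^ e * (P * (C ((e + 1 : ℕ) : k) * g + (X - C t) * derivative g)) := by
      rw [th_apply, derivative_mul, derivative_pow, derivative_X_sub_C, Nat.add_sub_cancel]
      ring
    rw [e1]
    refine ih (by omega) _ ?_
    rw [eval_mul, eval_add, eval_mul, eval_mul, eval_sub, eval_X, eval_C, eval_C, sub_self, zero_mul,
      add_zero]
    refine mul_ne_zero hP (mul_ne_zero ?_ hg)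
    intro h0
    have := (CharP.cast_eq_zero_iff k p (e + 1)).1 h0
    exact absurd (Nat.le_of_dvd (by omega) this) (by omega)

private theorem dvd_of_iter (p : ℕ) [Fact p.Prime] [CharP k p] (P f : k[X]) (t : k)
    (hP : P.eval t ≠ 0) (M : ℕ) (hM : M ≤ p) (h : ∀ r < M, ((th P)^[r] f).eval t = 0) :
    (X - C t) ^ M ∣ f := by
  by_cases hf : f = 0
  · rw [hf]; exact dvd_zero _
  rw [← le_rootMultiplicity_iff hf]
  by_contra hlt
  push Not at hlt
  obtain ⟨g, hg, hnd⟩ := exists_eq_pow_rootMultiplicity_mul_and_not_dvd f hf t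
  have hg0 : g.eval t ≠ 0 := fun h0 => hnd (dvd_iff_isRoot.2 h0)
  have := iter_ne p P t hP (rootMultiplicity t f) (by omega) g hg0
  rw [← hg] at this
  exact this (h _ hlt)

end

private theorem natDegree_del {k : Type} [Field k] (n : k) : (del n).natDegree ≤ 2 := by
  unfold del
  refine (natDegree_sub_le _ _).trans ?_
  rw [natDegree_C]
  have := natDegree_X_pow_le (R := k) 2
  omega

private theorem natDegree_delh {k : Type} [Field k] (n h : k) : (delh n h).natDegree ≤ 2 := by
  unfold delh
  refine (natDegree_sub_le _ _).trans ?_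
  rw [natDegree_C]
  have h1 : (X + C h : k[X]).natDegree ≤ 1 := (natDegree_X_add_C h).le
  have := natDegree_pow_le_of_le 2 h1
  omega

private theorem two_m {k : Type} [Field k] (p : ℕ) [hp : Fact p.Prime] [CharP k p] (hp2 : p ≠ 2) :
    (2 * (((p - 1) / 2 : ℕ) : k)) = -1 := by
  have hodd : p % 2 = 1 := by
    rcases hp.out.eq_two_or_odd with h | h
    · exact absurd h hp2
    · exact h
  have h1 : 2 * ((p - 1) / 2) + 1 = p := by have := hp.out.pos; omega
  have h2 : ((2 * ((p - 1) / 2) + 1 : ℕ) : k) = 0 := by rw [h1]; exact CharP.cast_eq_zero k p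
  push_cast at h2
  linear_combination h2

private theorem der_pow_m {k : Type} [Field k] (p : ℕ) [hp : Fact p.Prime] [CharP k p] (hp2 : p ≠ 2)
    (Q R Q' : k[X]) (hQ : derivative Q = C 2 * Q') :
    (Q * R) * derivative (Q ^ ((p - 1) / 2)) = (-(Q' * R)) * Q ^ ((p - 1) / 2) := by
  have h2 := two_m (k := k) p hp2
  have hm : 1 ≤ (p - 1) / 2 := by
    rcases hp.out.eq_two_or_odd with h | h
    · exact absurd h hp2
    · have := hp.out.two_le
      omega
  obtain ⟨j, hj⟩ := Nat.exists_eq_add_of_le' hm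
  rw [hj] at h2 ⊢
  rw [derivative_pow, Nat.add_sub_cancel, hQ, pow_succ]
  have h3 : (C ((j + 1 : ℕ) : k) * C 2 : k[X]) = -1 := by
    rw [← C_mul, mul_comm, h2, C_neg, C_1]
  calc Q * R * (C ((j + 1 : ℕ) : k) * Q ^ j * (C 2 * Q'))
      = (C ((j + 1 : ℕ) : k) * C 2) * (Q' * R) * (Q ^ j * Q) := by ring
    _ = -(Q' * R) * (Q ^ j * Q) := by rw [h3]; ring

/-- MODULE LIN -/
theorem hLIN : StLIN := by
  intro k _ p hp _ hp2 n h s1 s2 D a b c M hD hM hdim
  classical
  set m := (p - 1) / 2 with hm
  set P := del n * delh n h with hPdef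
  set A := del n ^ m with hA
  set B := delh n h ^ m with hB
  have ha : 0 < a := by
    rcases Nat.eq_zero_or_pos a with h0 | h0
    · subst h0; simp at hdim
    · exact h0
  have hb : 0 < b := by
    rcases Nat.eq_zero_or_pos b with h0 | h0
    · subst h0; simp at hdim
    · exact h0
  have hc : 0 < c := by
    rcases Nat.eq_zero_or_pos c with h0 | h0
    · subst h0; simp at hdim
    · exact h0
  -- data
  have hPdeg : P.natDegree ≤ 4 := by
    refine natDegree_mul_le.trans ?_
    have := natDegree_del n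
    have := natDegree_delh n h
    omega
  have hRA : (-(X * delh n h) : k[X]).natDegree ≤ 4 := by
    rw [natDegree_neg]
    refine natDegree_mul_le.trans ?_
    have := natDegree_delh n h
    have := natDegree_X_le (R := k)
    omega
  have hRB : (-((X + C h) * del n) : k[X]).natDegree ≤ 4 := by
    rw [natDegree_neg]
    refine natDegree_mul_le.trans ?_
    have := natDegree_del n
    have h1 : (X + C h : k[X]).natDegree ≤ 1 := (natDegree_X_add_C h).le
    omega
  have hAd : P * derivative A = (-(X * delh n h)) * A := by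
    refine der_pow_m p hp2 (del n) (delh n h) X ?_
    unfold del
    rw [derivative_sub, derivative_C, sub_zero, derivative_X_pow]
    norm_num
  have hBd : P * derivative B = (-((X + C h) * del n)) * B := by
    have : P = delh n h * del n := mul_comm _ _
    rw [this]
    refine der_pow_m p hp2 (delh n h) (del n) (X + C h) ?_
    unfold delh
    rw [derivative_sub, derivative_C, sub_zero, derivative_pow, derivative_add, derivative_X,
      derivative_C]
    norm_num
  -- the linear map
  let L := Fin a × Fin b × Fin c → k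
  let term : Fin a × Fin b × Fin c → L →ₗ[k] k[X] := fun s =>
    (LinearMap.proj s : L →ₗ[k] k).smulRight
      (X ^ (p * (s.2.2 : ℕ)) * X ^ (s.1 : ℕ) * D ^ (s.2.1 : ℕ) * A ^ 0 * B ^ 0)
  let F : L →ₗ[k] k[X] := ∑ s, term s
  have hF : F ∈ Submodule.span k (gen (L := L) p D A B (a + c - 2)) := by
    refine Submodule.sum_mem _ fun s _ => Submodule.subset_span ?_
    refine ⟨LinearMap.proj s, s.2.2, X ^ (s.1 : ℕ), s.2.1, 0, 0, ?_, rfl⟩
    have := natDegree_X_pow_le (R := k) (s.1 : ℕ)
    have h1 := s.1.2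
    have h2 := s.2.2.2
    omega
  have hG : ∀ r : ℕ, ∃ G : L →ₗ[k] k[X], (∀ u, (G u).natDegree ≤ a + c - 2 + 4 * r) ∧
      ∀ (t : k) (u : L), D.eval t = 0 → A.eval t = s1 → B.eval t = s2 → t ^ p = t →
        ((th P)^[r] (F u)).eval t = (G u).eval t := by
    intro r
    obtain ⟨Fr, h1, h2⟩ := iter_mem p hPdeg hRA hRB hD hAd hBd hF r
    obtain ⟨G, hG1, hG2⟩ := vals p s1 s2 h1
    refine ⟨G, hG1, fun t u a1 a2 a3 a4 => ?_⟩
    rw [← h2]
    exact hG2 t u a1 a2 a3 a4
  choose G hG1 hG2 using hG
  let N := a + c + 4 * M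
  let Psi : L →ₗ[k] (Fin M × Fin N → k) :=
    LinearMap.pi fun s => (lcoeff k (s.2 : ℕ)).comp (G (s.1 : ℕ))
  have hker : LinearMap.ker Psi ≠ ⊥ := by
    apply LinearMap.ker_ne_bot_of_finrank_lt
    rw [Module.finrank_fintype_fun_eq_card, Module.finrank_fintype_fun_eq_card]
    simp only [Fintype.card_prod, Fintype.card_fin]
    calc M * N < a * b * c := hdim
      _ = a * (b * c) := by ring
  obtain ⟨u, hu, hu0⟩ := (Submodule.ne_bot_iff _).1 hker
  rw [LinearMap.mem_ker] at hu
  have hGu : ∀ r < M, G r u = 0 := by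
    intro r hr
    ext j
    rw [coeff_zero]
    by_cases hj : j < N
    · have := congrFun hu (⟨r, hr⟩, ⟨j, hj⟩)
      exact this
    · refine coeff_eq_zero_of_natDegree_lt ?_
      have := hG1 r u
      have : N = a + c + 4 * M := rfl
      omega
  obtain ⟨lam, hlam⟩ : ∃ lam : ℕ → ℕ → ℕ → k, ∀ (i : Fin a) (j : Fin b) (l : Fin c),
      lam i j l = u (i, j, l) := by
    refine ⟨fun i j l => if hi : i < a ∧ j < b ∧ l < c then
      u (⟨i, hi.1⟩, ⟨j, hi.2.1⟩, ⟨l, hi.2.2⟩) else 0, fun i j l => ?_⟩
    have hi : (i : ℕ) < a ∧ (j : ℕ) < b ∧ (l : ℕ) < c := ⟨i.2, j.2, l.2⟩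
    show (if hi : (i : ℕ) < a ∧ (j : ℕ) < b ∧ (l : ℕ) < c then
      u (⟨i, hi.1⟩, ⟨j, hi.2.1⟩, ⟨l, hi.2.2⟩) else 0) = _
    rw [dif_pos hi]
  refine ⟨lam, ?_, ?_⟩
  · obtain ⟨s, hs⟩ := Function.ne_iff.1 hu0
    refine ⟨s.1, s.1.2, s.2.1, s.2.1.2, s.2.2, s.2.2.2, ?_⟩
    rw [hlam]
    exact hs
  · intro t h1 h2 h3 h4 h5
    have hFu : F u = aux p D a b c lam := by
      have e1 : F u = ∑ s : Fin a × Fin b × Fin c, u s •
          (X ^ (p * (s.2.2 : ℕ)) * X ^ (s.1 : ℕ) * D ^ (s.2.1 : ℕ) * A ^ 0 * B ^ 0) := by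
        show (∑ s, term s) u = _
        rw [LinearMap.sum_apply]
        rfl
      rw [e1, Fintype.sum_prod_type]
      unfold aux
      rw [Finset.sum_range]
      refine Finset.sum_congr rfl fun i _ => ?_
      rw [Fintype.sum_prod_type, Finset.sum_range]
      refine Finset.sum_congr rfl fun j _ => ?_
      rw [Finset.sum_range]
      refine Finset.sum_congr rfl fun l _ => ?_
      rw [hlam, smul_eq_C_mul, pow_zero, pow_zero]
      ring
    rw [← hFu]
    refine dvd_of_iter p P (F u) t h5 M hM fun r hr => ?_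
    rw [hG2 r t u h1 h2 h3 h4, hGu r hr, eval_zero]

end Pool.Agent.Helper86.WP
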